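import Pool.Agent.Helper61.FN.Goals

/-!
# Project FN, packet FN-AB2
-/

set_option autoImplicit false

namespace Pool.Agent.Helper91.FN

open Finset Pool.Agent.Helper61.FN

/-- The final inequality. -/
theorem fin_ineq {F : Type} [Field F] [LinearOrder F] [IsStrictOrderedRing F] {a b c d : F}
    (ha : 0 < a) (hb : 0 < b) (hc : 0 < c) (hd : 0 < d) :
    a * b * (c ^ 2 + d ^ 2) - c * d * (a ^ 2 + b ^ 2) < (a + b + c + d) ^ 2 * (a * b) := by
  have h1 : 0 < a * b := mul_pos ha hb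
  have h2 : 0 < c * d := mul_pos hc hd
  have h3 : 0 < a ^ 2 + b ^ 2 := by positivity
  have h4 : c ^ 2 + d ^ 2 < (a + b + c + d) ^ 2 := by
    nlinarith [mul_pos ha hc, mul_pos ha hd, mul_pos hb hc, mul_pos hb hd, mul_pos ha hb,
      mul_pos ha ha, mul_pos hb hb, mul_pos hc hd]
  nlinarith [mul_pos h2 h3, mul_lt_mul_of_pos_left h4 h1]

/-- The final contradiction, with the identity in the extension field. -/
theorem fin_contra {F k : Type} [Field F] [LinearOrder F] [IsStrictOrderedRing F] [Field k]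
    [Algebra F k] {a b c d : F} (ha : 0 < a) (hb : 0 < b) (hc : 0 < c) (hd : 0 < d)
    (h : (algebraMap F k a * algebraMap F k c - algebraMap F k b * algebraMap F k d) *
      (algebraMap F k b * algebraMap F k c - algebraMap F k a * algebraMap F k d) =
      (algebraMap F k a + algebraMap F k b + algebraMap F k c + algebraMap F k d) ^ 2 *
        (algebraMap F k a * algebraMap F k b)) : False := by
  have h1 : (a * c - b * d) * (b * c - a * d) = (a + b + c + d) ^ 2 * (a * b) := by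
    apply (algebraMap F k).injective
    simp only [map_mul, map_sub, map_add, map_pow]
    exact h
  have h2 := fin_ineq ha hb hc hd
  have h3 : (a * c - b * d) * (b * c - a * d) =
      a * b * (c ^ 2 + d ^ 2) - c * d * (a ^ 2 + b ^ 2) := by ring
  rw [← h1, h3] at h2
  exact lt_irrefl _ h2

/-- The strict case. -/
theorem str_contra {F k : Type} [Field F] [LinearOrder F] [IsStrictOrderedRing F] [Field k]
    [Algebra F k] {a b c d : F} (ha : 0 < a) (hb : 0 < b) (hc : 0 < c) (hd : 0 < d) {r s : k}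
    (hr : r ^ 2 = 1) (hs : s ^ 2 = 1)
    (h : algebraMap F k a + algebraMap F k b + algebraMap F k c + algebraMap F k d =
      algebraMap F k c * r + algebraMap F k d * s) : False := by
  have key : ∀ e f : F, r = algebraMap F k e → s = algebraMap F k f →
      a + b + c + d = c * e + d * f := by
    intro e f he hf
    apply (algebraMap F k).injective
    simp only [map_mul, map_add]
    rw [← he, ← hf]
    exact h
  have o1 : (1 : k) = algebraMap F k 1 := (map_one _).symm
  have o2 : (-1 : k) = algebraMap F k (-1) := by rw [map_neg, map_one]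
  have h1 : r = 1 ∨ r = -1 := by
    have h2 : (r - 1) * (r + 1) = 0 := by linear_combination hr
    rcases mul_eq_zero.1 h2 with h3 | h3
    · exact Or.inl (sub_eq_zero.1 h3)
    · exact Or.inr (eq_neg_of_add_eq_zero_left h3)
  have h2 : s = 1 ∨ s = -1 := by
    have h2 : (s - 1) * (s + 1) = 0 := by linear_combination hs
    rcases mul_eq_zero.1 h2 with h3 | h3
    · exact Or.inl (sub_eq_zero.1 h3)
    · exact Or.inr (eq_neg_of_add_eq_zero_left h3)
  rcases h1 with h1 | h1 <;> rcases h2 with h2 | h2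
  · have := key 1 1 (h1.trans o1) (h2.trans o1)
    linarith
  · have := key 1 (-1) (h1.trans o1) (h2.trans o2)
    linarith
  · have := key (-1) 1 (h1.trans o2) (h2.trans o1)
    linarith
  · have := key (-1) (-1) (h1.trans o2) (h2.trans o2)
    linarith

section alg

variable {k : Type} [Field k] [CharZero k] {a b c d r s : k}

theorem alg_c (hr : r ≠ 0) (hs : s ≠ 0)
    (h0 : 2 * (a + b + c + d) = c * (r + r⁻¹) + d * (s + s⁻¹))
    (h1 : c * (r - r⁻¹) = d * (s - s⁻¹)) (h5 : a + b * (r * s) = 0) :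
    (a * c - b * d) * (b * c - a * d) = (a + b + c + d) ^ 2 * (a * b) := by
  have e1 : a + b + c + d = c * r + d * s⁻¹ := by
    linear_combination (1 / 2 : k) * h0 - (1 / 2 : k) * h1
  have e2 : a + b + c + d = d * s + c * r⁻¹ := by
    linear_combination (1 / 2 : k) * h0 + (1 / 2 : k) * h1
  have e3 : (a + b + c + d) * s = c * r * s + d := by
    rw [e1]; field_simp
  have e4 : (a + b + c + d) * r = d * s * r + c := by
    rw [e2]; field_simp
  generalize a + b + c + d = N at *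
  have e5 : b * N * s = b * d - a * c := by linear_combination b * e3 + c * h5
  have e6 : b * N * r = b * c - a * d := by linear_combination b * e4 + d * h5
  have e7 : N ^ 2 * b * (b * (r * s)) = (b * d - a * c) * (b * c - a * d) := by
    rw [← e5, ← e6]; ring
  linear_combination e7 - N ^ 2 * b * h5

theorem alg_a (hr : r ≠ 0) (hs : s ≠ 0)
    (h0 : 2 * (a + b + c + d) = c * (r + r⁻¹) + d * (s + s⁻¹))
    (h1 : c * (r - r⁻¹) = -(d * (s - s⁻¹))) (h5 : a * r + b * s = 0) :
    (a * c - b * d) * (b * c - a * d) = (a + b + c + d) ^ 2 * (a * b) := by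
  have e1 : a + b + c + d = c * r + d * s := by
    linear_combination (1 / 2 : k) * h0 - (1 / 2 : k) * h1
  have e2 : a + b + c + d = d * s⁻¹ + c * r⁻¹ := by
    linear_combination (1 / 2 : k) * h0 + (1 / 2 : k) * h1
  have e4 : (a + b + c + d) * (s * r) = d * r + c * s := by
    rw [e2]; field_simp
  generalize a + b + c + d = N at *
  have e5 : a * N = (a * d - b * c) * s := by linear_combination a * e1 + c * h5
  have e6 : b * N * s = b * d - a * c := by
    have : b * N * s * r = (b * d - a * c) * r := by linear_combination b * e4 + c * h5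
    exact mul_right_cancel₀ hr this
  have e7 : N ^ 2 * (a * b) * s = (a * c - b * d) * (b * c - a * d) * s := by
    linear_combination b * N * s * e5 + (a * d - b * c) * s * e6
  exact (mul_right_cancel₀ hs e7).symm

/-- The ratios from the raw equation of edge 0. -/
theorem edge0 {x0 x1 x2 x3 x4 : k} (ha : a ≠ 0) (hb : b ≠ 0) (h0 : x0 ≠ 0)
    (h : a * b * (a + b + c + d) * x0⁻¹ + -(a * b * c) / 2 * (x0⁻¹ * (x1 * x3⁻¹)) +
      -(a * b * c) / 2 * (x0⁻¹ * (x1⁻¹ * x3)) + -(a * b * d) / 2 * (x0⁻¹ * (x2 * x4⁻¹)) +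
      -(a * b * d) / 2 * (x0⁻¹ * (x2⁻¹ * x4)) = 0) :
    2 * (a + b + c + d) = c * (x1 / x3 + (x1 / x3)⁻¹) + d * (x2 / x4 + (x2 / x4)⁻¹) := by
  have h5 : a * b * x0⁻¹ ≠ 0 := mul_ne_zero (mul_ne_zero ha hb) (inv_ne_zero h0)
  have h6 : a * b * x0⁻¹ * (2 * (a + b + c + d)) =
      a * b * x0⁻¹ * (c * (x1 / x3 + (x1 / x3)⁻¹) + d * (x2 / x4 + (x2 / x4)⁻¹)) := by
    rw [inv_div, inv_div, div_eq_mul_inv, div_eq_mul_inv, div_eq_mul_inv, div_eq_mul_inv]
    linear_combination 2 * h
  exact mul_left_cancel₀ h5 h6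

/-- The ratios from the raw equations of the edges 1 and 2. -/
theorem edge12 {x0 x1 x2 x3 x4 : k} (ha : a ≠ 0) (hb : b ≠ 0) (h0 : x0 ≠ 0) {p q : k}
    (h : p * (-(a * b * c) / 2 * (x0⁻¹ * (x1 * x3⁻¹)) + -(-(a * b * c) / 2 * (x0⁻¹ * (x1⁻¹ * x3)))) =
      q * (-(a * b * d) / 2 * (x0⁻¹ * (x2 * x4⁻¹)) + -(-(a * b * d) / 2 * (x0⁻¹ * (x2⁻¹ * x4))))) :
    p * (c * (x1 / x3 - (x1 / x3)⁻¹)) = q * (d * (x2 / x4 - (x2 / x4)⁻¹)) := by
  have h5 : a * b * x0⁻¹ ≠ 0 := mul_ne_zero (mul_ne_zero ha hb) (inv_ne_zero h0)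
  have h6 : a * b * x0⁻¹ * (p * (c * (x1 / x3 - (x1 / x3)⁻¹))) =
      a * b * x0⁻¹ * (q * (d * (x2 / x4 - (x2 / x4)⁻¹))) := by
    rw [inv_div, inv_div, div_eq_mul_inv, div_eq_mul_inv, div_eq_mul_inv, div_eq_mul_inv]
    linear_combination (-2) * h
  exact mul_left_cancel₀ h5 h6

end alg

theorem goalAB2 : G_AB2 := by
  intro F k _ _ _ _ _ n lam v M ξ h h0 h3 h4 h1 h2 h5
  have : CharZero k := charZero_of_injective_algebraMap (algebraMap F k).injective
  have n0 := h.pos 0
  have n1 := h.pos 1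
  have n2 := h.pos 2
  have n3 := h.pos 3
  have x0 := h.nrm.ne 0
  have x1 := h.nrm.ne 1
  have x2 := h.nrm.ne 2
  have x3 := h.nrm.ne 3
  have x4 := h.nrm.ne 4
  have x5 := h.nrm.ne 5
  have e0 := h.nrm.ld0 0
  have e1 := h.nrm.ld0 1
  have e2 := h.nrm.ld0 2
  have e5 := h.nrm.ld0 5
  simp only [Fin.sum_univ_succ, gr6] at e0 e1 e2 e5
  simp [mA, cA, mon, Fin.prod_univ_succ, h0, h3, h4, h1.ne', h2.ne', h5.ne'] at e0 e1 e2 e5
  have t2 : (algebraMap F k) 2 = 2 := map_ofNat _ 2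
  rw [t2] at e0 e1 e2 e5
  have a0 : algebraMap F k (n 0) ≠ 0 := am_ne n0.ne'
  have a1 : algebraMap F k (n 1) ≠ 0 := am_ne n1.ne'
  have a2 : algebraMap F k (n 2) ≠ 0 := am_ne n2.ne'
  have a3 : algebraMap F k (n 3) ≠ 0 := am_ne n3.ne'
  have r0 : ξ 1 / ξ 3 ≠ 0 := div_ne_zero x1 x3
  have s0 : ξ 2 / ξ 4 ≠ 0 := div_ne_zero x2 x4
  have E0 := edge0 (c := algebraMap F k (n 2)) (d := algebraMap F k (n 3)) (x1 := ξ 1) (x2 := ξ 2)
    (x3 := ξ 3) (x4 := ξ 4) a0 a1 x0 (by linear_combination -e0)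
  have two : (2 : k) ≠ 0 := two_ne_zero
  by_cases hA : v 1 + -v 2 + -v 5 = 0
  · have hB : ¬ -v 1 + v 2 + -v 5 = 0 := by omega
    have hC : ¬ -v 1 + -v 2 + v 5 = 0 := by omega
    simp only [if_pos hA, if_neg hB, if_neg hC, add_zero, zero_add] at e1 e2 e5
    have E1 := edge12 (c := algebraMap F k (n 2)) (d := algebraMap F k (n 3)) (x1 := ξ 1)
      (x2 := ξ 2) (x3 := ξ 3) (x4 := ξ 4) (p := 1) (q := -1) a0 a1 x0
      (by linear_combination e1 + e2)
    have E5 : algebraMap F k (n 0) * (ξ 1 / ξ 3) + algebraMap F k (n 1) * (ξ 2 / ξ 4) = 0 := by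
      field_simp at e5 ⊢
      refine mul_left_cancel₀ (mul_ne_zero a2 a3) ?_
      linear_combination e5
    exact fin_contra n0 n1 n2 n3 (alg_a r0 s0 E0 (by linear_combination E1) E5)
  by_cases hB : -v 1 + v 2 + -v 5 = 0
  · have hC : ¬ -v 1 + -v 2 + v 5 = 0 := by omega
    simp only [if_neg hA, if_pos hB, if_neg hC, add_zero, zero_add] at e1 e2 e5
    have E1 := edge12 (c := algebraMap F k (n 2)) (d := algebraMap F k (n 3)) (x1 := ξ 1)
      (x2 := ξ 2) (x3 := ξ 3) (x4 := ξ 4) (p := 1) (q := -1) a0 a1 x0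
      (by linear_combination e1 + e2)
    have E5 : algebraMap F k (n 0) * (ξ 2 / ξ 4) + algebraMap F k (n 1) * (ξ 1 / ξ 3) = 0 := by
      field_simp at e5 ⊢
      refine mul_left_cancel₀ (mul_ne_zero a2 a3) ?_
      linear_combination e5
    have := alg_a (a := algebraMap F k (n 0)) (b := algebraMap F k (n 1))
      (c := algebraMap F k (n 3)) (d := algebraMap F k (n 2)) s0 r0
      (by linear_combination E0) (by linear_combination E1) E5
    exact fin_contra n0 n1 n2 n3 (by linear_combination this)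
  by_cases hC : -v 1 + -v 2 + v 5 = 0
  · simp only [if_neg hA, if_neg hB, if_pos hC, zero_add] at e1 e2 e5
    have E1 := edge12 (c := algebraMap F k (n 2)) (d := algebraMap F k (n 3)) (x1 := ξ 1)
      (x2 := ξ 2) (x3 := ξ 3) (x4 := ξ 4) (p := 1) (q := 1) a0 a1 x0
      (by linear_combination e1 - e2)
    have E5 : algebraMap F k (n 0) + algebraMap F k (n 1) * ((ξ 1 / ξ 3) * (ξ 2 / ξ 4)) = 0 := by
      field_simp at e5 ⊢
      refine mul_left_cancel₀ (mul_ne_zero (mul_ne_zero a2 a3) x5) ?_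
      linear_combination -e5
    exact fin_contra n0 n1 n2 n3 (alg_c r0 s0 E0 (by linear_combination E1) E5)
  · simp only [if_neg hA, if_neg hB, if_neg hC, add_zero] at e1 e2
    have E1 := edge12 (c := algebraMap F k (n 2)) (d := algebraMap F k (n 3)) (x1 := ξ 1)
      (x2 := ξ 2) (x3 := ξ 3) (x4 := ξ 4) (p := 1) (q := 0) a0 a1 x0
      (by linear_combination e1)
    have E2 := edge12 (c := algebraMap F k (n 2)) (d := algebraMap F k (n 3)) (x1 := ξ 1)
      (x2 := ξ 2) (x3 := ξ 3) (x4 := ξ 4) (p := 0) (q := 1) a0 a1 x0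
      (by linear_combination -e2)
    rw [one_mul, zero_mul] at E1 E2
    have E3 : ξ 1 / ξ 3 = (ξ 1 / ξ 3)⁻¹ :=
      sub_eq_zero.1 ((mul_eq_zero.1 E1).resolve_left a2)
    have E4 : ξ 2 / ξ 4 = (ξ 2 / ξ 4)⁻¹ :=
      sub_eq_zero.1 ((mul_eq_zero.1 E2.symm).resolve_left a3)
    refine str_contra n0 n1 n2 n3 (r := ξ 1 / ξ 3) (s := ξ 2 / ξ 4) ?_ ?_ ?_
    · rw [pow_two]
      nth_rewrite 2 [E3]
      exact mul_inv_cancel₀ r0
    · rw [pow_two]
      nth_rewrite 2 [E4]
      exact mul_inv_cancel₀ s0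
    · rw [← E3, ← E4] at E0
      linear_combination (1 / 2 : k) * E0

end Pool.Agent.Helper91.FN
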